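import Pool.Agent.Helper37.SN.Stmts

namespace Pool.Agent.Helper63.SN

open Finset Pool.Agent.Helper37.SN

theorem prd (hGG : ST_GG) : ST_PRD := by
  intro k
  obtain ⟨hsm, -, hz, -, hadm⟩ := hGG
  obtain ⟨C0, hC0, hA⟩ := hadm k
  refine ⟨2 ^ k * C0, by positivity, ?_⟩
  intro a V hV hb
  have ha : 0 ≤ a := le_trans (abs_nonneg _) (hb 0 (Nat.zero_le k) 0 (by norm_num))
  have hg : ContDiff ℝ k gg := hA.1
  refine ⟨hV.mul hg, ?_, ?_⟩
  · intro y hy
    show V y * gg y = 0
    rw [hz y hy, mul_zero]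
  · intro i hi y
    rcases le_or_gt |y| 2 with hy | hy
    · have h1 := norm_iteratedFDeriv_mul_le hV hg y (n := i) (by exact_mod_cast hi)
      have h2 : ∀ j ∈ range (i + 1), ((i.choose j : ℝ) * ‖iteratedFDeriv ℝ j V y‖ *
          ‖iteratedFDeriv ℝ (i - j) gg y‖) ≤ (i.choose j : ℝ) * (a * C0) := by
        intro j hj
        have hj' : j ≤ i := Nat.lt_succ_iff.1 (mem_range.1 hj)
        have e1 : ‖iteratedFDeriv ℝ j V y‖ ≤ a := by
          rw [norm_iteratedFDeriv_eq_norm_iteratedDeriv, Real.norm_eq_abs]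
          exact hb j (hj'.trans hi) y hy
        have e2 : ‖iteratedFDeriv ℝ (i - j) gg y‖ ≤ C0 := by
          rw [norm_iteratedFDeriv_eq_norm_iteratedDeriv, Real.norm_eq_abs]
          exact hA.2.2 (i - j) (by omega) y
        rw [mul_assoc]
        exact mul_le_mul_of_nonneg_left
          (mul_le_mul e1 e2 (norm_nonneg _) ha) (Nat.cast_nonneg _)
      have h3 := h1.trans (Finset.sum_le_sum h2)
      rw [← Finset.sum_mul] at h3
      have h4 : ∑ j ∈ range (i + 1), (i.choose j : ℝ) = 2 ^ i := by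
        have := Nat.sum_range_choose i
        exact_mod_cast this
      rw [h4, norm_iteratedFDeriv_eq_norm_iteratedDeriv, Real.norm_eq_abs] at h3
      refine h3.trans ?_
      have h5 : (2 : ℝ) ^ i ≤ 2 ^ k := pow_le_pow_right₀ (by norm_num) hi
      calc (2 : ℝ) ^ i * (a * C0) ≤ 2 ^ k * (a * C0) :=
            mul_le_mul_of_nonneg_right h5 (mul_nonneg ha hC0.le)
        _ = 2 ^ k * C0 * a := by ring
    · have h1 : (fun z => V z * gg z) =ᶠ[nhds y] (fun _ => (0 : ℝ)) := by
        have h2 : {z : ℝ | 2 < |z|} ∈ nhds y :=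
          (isOpen_lt continuous_const continuous_abs).mem_nhds hy
        filter_upwards [h2] with z hz2
        rw [hz z (le_of_lt hz2), mul_zero]
      rw [h1.iteratedDeriv_eq i]
      have h3 : iteratedDeriv i (fun _ : ℝ => (0 : ℝ)) y = 0 := by
        simp
      rw [h3, abs_zero]
      positivity

end Pool.Agent.Helper63.SN
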